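import Pool.Agent.H12.ZR.T

/-!
Page lx (MP_52e316_nt), row PRX, general form: the logarithm of the product of the inverses of the local factors,
from Ramanujan's bounds up to `g` at the primes of the product and the sums over the blocks of primes.
-/

set_option autoImplicit false

namespace Pool.Agent.H55.LX

open Pool.Agent.H27.ZF Pool.Agent.H68.ZS Pool.Agent.H12.ZR

/-- a sum of powers of the integers up to `Y` -/
lemma sum_small (e : ℝ) (he : 0 < e) : ∃ C : ℝ, 0 < C ∧ ∀ (S : Finset ℕ) (Y α : ℝ),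
    (∀ n ∈ S, 1 ≤ n ∧ (n : ℝ) ≤ Y) → 1 ≤ Y →
    ∑ n ∈ S, (n : ℝ) ^ (-α) ≤ C * Y ^ (max (1 - α) 0 + e) := by
  have hs : Summable (fun n : ℕ => (n : ℝ) ^ (-(1 + e))) :=
    Real.summable_nat_rpow.2 (by linarith)
  have h0 : 0 ≤ ∑' n : ℕ, (n : ℝ) ^ (-(1 + e)) := tsum_nonneg fun n => by positivity
  refine ⟨(∑' n : ℕ, (n : ℝ) ^ (-(1 + e))) + 1, by linarith, ?_⟩
  intro S Y α hS hY
  have hmx : 0 ≤ max (1 - α) 0 := le_max_right _ _
  calc ∑ n ∈ S, (n : ℝ) ^ (-α) ≤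
      ∑ n ∈ S, Y ^ (max (1 - α) 0 + e) * (n : ℝ) ^ (-(1 + e)) := by
        refine Finset.sum_le_sum fun n hn => ?_
        obtain ⟨h1, h2⟩ := hS n hn
        have h3 : (1 : ℝ) ≤ n := by exact_mod_cast h1
        have h4 : (0 : ℝ) < n := by linarith
        calc (n : ℝ) ^ (-α) ≤ (n : ℝ) ^ ((max (1 - α) 0 + e) + -(1 + e)) :=
              Real.rpow_le_rpow_of_exponent_le h3 (by linarith [le_max_left (1 - α) 0])
          _ = (n : ℝ) ^ (max (1 - α) 0 + e) * (n : ℝ) ^ (-(1 + e)) := Real.rpow_add h4 _ _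
          _ ≤ _ := mul_le_mul_of_nonneg_right (Real.rpow_le_rpow h4.le h2 (by linarith))
              (by positivity)
    _ = Y ^ (max (1 - α) 0 + e) * ∑ n ∈ S, (n : ℝ) ^ (-(1 + e)) := by rw [Finset.mul_sum]
    _ ≤ Y ^ (max (1 - α) 0 + e) * ((∑' n : ℕ, (n : ℝ) ^ (-(1 + e))) + 1) := by
        refine mul_le_mul_of_nonneg_left ?_ (by positivity)
        have := hs.sum_le_tsum S (fun n _ => by positivity)
        linarith
    _ = _ := mul_comm _ _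

/-- one block of primes -/
lemma block {m : ℕ} {C' : ℝ} (hC' : 1 ≤ C')
    (hL : ∀ (h q : ℕ → ℂ) (x : ℂ), Inv m h q →
      (∀ k, 1 ≤ k → k ≤ m → ‖h k * x ^ k‖ ≤ 1 / C') →
      0 < ‖qv m q x‖ ∧ |Real.log ‖qv m q x‖ + (∑ k ∈ Finset.Icc 1 m, h k * x ^ k).re| ≤
        C' * ∑ k ∈ Finset.Icc 1 m, ‖h k * x ^ k‖ ^ 2)
    {lam : ℕ → ℂ} {q : ℕ → ℕ → ℂ} (hE : Eul m lam q) (s : ℂ) (U : Finset ℕ)
    (hU : ∀ p ∈ U, p.Prime) (D : ℝ)
    (h0 : ∀ p ∈ U, ∀ k : ℕ, 1 ≤ k → k ≤ m →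
      ‖lam (p ^ k) * (p : ℂ) ^ (-((k : ℂ) * s))‖ ≤ 1 / C')
    (h1 : ∀ k : ℕ, 1 ≤ k → k ≤ m →
      ‖∑ p ∈ U, lam (p ^ k) * (p : ℂ) ^ (-((k : ℂ) * s))‖ +
        ∑ p ∈ U, ‖lam (p ^ k) * (p : ℂ) ^ (-((k : ℂ) * s))‖ ^ 2 ≤ D) :
    (∀ p ∈ U, 0 < ‖qv m (q p) ((p : ℂ) ^ (-s))‖) ∧
    |∑ p ∈ U, Real.log ‖qv m (q p) ((p : ℂ) ^ (-s))‖| ≤ m * (1 + C') * D := by
  have hpow : ∀ (p k : ℕ), ((p : ℂ) ^ (-s)) ^ k = (p : ℂ) ^ (-((k : ℂ) * s)) := by
    intro p k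
    rw [← Complex.cpow_nat_mul]
    congr 1
    ring
  have hp : ∀ p ∈ U, 0 < ‖qv m (q p) ((p : ℂ) ^ (-s))‖ ∧
      |Real.log ‖qv m (q p) ((p : ℂ) ^ (-s))‖ +
        (∑ k ∈ Finset.Icc 1 m, lam (p ^ k) * (p : ℂ) ^ (-((k : ℂ) * s))).re| ≤
        C' * ∑ k ∈ Finset.Icc 1 m, ‖lam (p ^ k) * (p : ℂ) ^ (-((k : ℂ) * s))‖ ^ 2 := by
    intro p hp
    have h2 := hL (fun k => lam (p ^ k)) (q p) ((p : ℂ) ^ (-s)) (hE.loc p (hU p hp)) (by
      intro k hk1 hk2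
      show ‖lam (p ^ k) * ((p : ℂ) ^ (-s)) ^ k‖ ≤ 1 / C'
      rw [hpow]
      exact h0 p hp k hk1 hk2)
    simp only [hpow] at h2
    exact h2
  refine ⟨fun p h => (hp p h).1, ?_⟩
  have e1 : ∑ p ∈ U, Real.log ‖qv m (q p) ((p : ℂ) ^ (-s))‖ =
      ∑ p ∈ U, (Real.log ‖qv m (q p) ((p : ℂ) ^ (-s))‖ +
        (∑ k ∈ Finset.Icc 1 m, lam (p ^ k) * (p : ℂ) ^ (-((k : ℂ) * s))).re) -
      (∑ k ∈ Finset.Icc 1 m, ∑ p ∈ U, lam (p ^ k) * (p : ℂ) ^ (-((k : ℂ) * s))).re := by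
    rw [Finset.sum_add_distrib, ← Complex.re_sum, Finset.sum_comm (s := U)]
    ring
  rw [e1]
  calc _ ≤ |∑ p ∈ U, (Real.log ‖qv m (q p) ((p : ℂ) ^ (-s))‖ +
        (∑ k ∈ Finset.Icc 1 m, lam (p ^ k) * (p : ℂ) ^ (-((k : ℂ) * s))).re)| +
      |(∑ k ∈ Finset.Icc 1 m, ∑ p ∈ U, lam (p ^ k) * (p : ℂ) ^ (-((k : ℂ) * s))).re| :=
        abs_sub _ _
    _ ≤ ∑ p ∈ U, C' * ∑ k ∈ Finset.Icc 1 m, ‖lam (p ^ k) * (p : ℂ) ^ (-((k : ℂ) * s))‖ ^ 2 +
      ∑ k ∈ Finset.Icc 1 m, ‖∑ p ∈ U, lam (p ^ k) * (p : ℂ) ^ (-((k : ℂ) * s))‖ := by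
        refine add_le_add ?_ ((Complex.abs_re_le_norm _).trans (norm_sum_le _ _))
        exact (Finset.abs_sum_le_sum_abs _ _).trans (Finset.sum_le_sum fun p h => (hp p h).2)
    _ = ∑ k ∈ Finset.Icc 1 m, (‖∑ p ∈ U, lam (p ^ k) * (p : ℂ) ^ (-((k : ℂ) * s))‖ +
              C' * ∑ p ∈ U, ‖lam (p ^ k) * (p : ℂ) ^ (-((k : ℂ) * s))‖ ^ 2) := by
        rw [← Finset.mul_sum, Finset.sum_comm (s := U), Finset.sum_add_distrib, ← Finset.mul_sum]
        ring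
    _ ≤ ∑ _k ∈ Finset.Icc 1 m, (1 + C') * D := by
        apply Finset.sum_le_sum
        intro k hk
        rw [Finset.mem_Icc] at hk
        have h4 := h1 k hk.1 hk.2
        have h5 : 0 ≤ ∑ p ∈ U, ‖lam (p ^ k) * (p : ℂ) ^ (-((k : ℂ) * s))‖ ^ 2 :=
          Finset.sum_nonneg fun p _ => by positivity
        have h6 : 0 ≤ ‖∑ p ∈ U, lam (p ^ k) * (p : ℂ) ^ (-((k : ℂ) * s))‖ := norm_nonneg _
        nlinarith [mul_le_mul_of_nonneg_left h4 (by linarith : (0 : ℝ) ≤ 1 + C'),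
          mul_nonneg (by linarith : (0 : ℝ) ≤ C') h6]
    _ = m * (1 + C') * D := by
        rw [Finset.sum_const, Nat.card_Icc, nsmul_eq_mul]
        simp only [Nat.add_sub_cancel]
        ring

/-- a sum over the primes of a block -/
lemma block_sum {z0 z : ℝ} {j : ℕ} (hj : 1 ≤ j) {α : ℝ} (hα : 0 ≤ α) :
    ∑ p ∈ UP z0 z j, (p : ℝ) ^ (-α) ≤ (2 : ℝ) ^ (((j : ℝ) - 1) * (1 - α)) := by
  have h2 : (0 : ℝ) < 2 ^ (j - 1) := by positivity
  have hj1 : ((j - 1 : ℕ) : ℝ) = (j : ℝ) - 1 := by push_cast [Nat.cast_sub hj]; ring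
  calc ∑ p ∈ UP z0 z j, (p : ℝ) ^ (-α) ≤ ∑ _p ∈ UP z0 z j, ((2 : ℝ) ^ (j - 1)) ^ (-α) := by
        refine Finset.sum_le_sum fun p hp => ?_
        have h1 := (Finset.mem_Ioc.1 (Finset.mem_filter.1 hp).1).1
        have h3 : ((2 : ℝ) ^ (j - 1)) ≤ p := by exact_mod_cast h1.le
        exact Real.rpow_le_rpow_of_nonpos h2 h3 (by linarith)
    _ = ((UP z0 z j).card : ℝ) * ((2 : ℝ) ^ (j - 1)) ^ (-α) := by
        rw [Finset.sum_const, nsmul_eq_mul]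
    _ ≤ (2 : ℝ) ^ (j - 1) * ((2 : ℝ) ^ (j - 1)) ^ (-α) := by
        refine mul_le_mul_of_nonneg_right ?_ (by positivity)
        have h1 : (UP z0 z j).card ≤ 2 ^ j - 2 ^ (j - 1) := by
          calc (UP z0 z j).card ≤ (Finset.Ioc (2 ^ (j - 1)) (2 ^ j)).card :=
                Finset.card_filter_le _ _
            _ = _ := by rw [Nat.card_Ioc]
        have h3 : 2 ^ j - 2 ^ (j - 1) = 2 ^ (j - 1) := by
          obtain ⟨i, rfl⟩ : ∃ i, j = i + 1 := ⟨j - 1, by omega⟩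
          rw [Nat.add_sub_cancel, pow_succ]
          omega
        rw [h3] at h1
        exact_mod_cast h1
    _ = _ := by
        rw [← Real.rpow_natCast 2 (j - 1), hj1, ← Real.rpow_mul (by norm_num),
          ← Real.rpow_add (by norm_num)]
        congr 1
        ring

/-- the logarithm of the product -/
theorem prxG (hLFA : T_LFA) (hLQS : T_LQS) (m : ℕ) (d e g C1 : ℝ) (hm : 1 ≤ m) (hd : 0 < d)
    (hg0 : 0 < g) (hge : 2 * g ≤ e) (hgd : 2 * g ≤ d) (hC1 : 0 < C1) :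
    ∃ C Q0 : ℝ, 0 < C ∧ 1 ≤ Q0 ∧ ∀ (lam : ℕ → ℂ) (q : ℕ → ℕ → ℂ) (Q : ℝ), Q0 ≤ Q →
    Eul m lam q → ∀ z : ℝ, Rb m lam z g → ∀ s : ℂ, 1 / 2 + d ≤ s.re →
    (∀ j : ℕ, 1 ≤ j → Real.log Q ≤ 2 ^ j → (UP (Real.log Q) z j).Nonempty →
      ‖∑ p ∈ UP (Real.log Q) z j, lam p * (p : ℂ) ^ (-s)‖ ≤
        C1 * √(Real.log Q) * (2 : ℝ) ^ (-((j : ℝ) * (s.re - 1 / 2 - g)))) →
    0 < ‖∏ p ∈ (Finset.range (⌊z⌋₊ + 1)).filter Nat.Prime, qv m (q p) ((p : ℂ) ^ (-s))‖ ∧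
    |Real.log ‖∏ p ∈ (Finset.range (⌊z⌋₊ + 1)).filter Nat.Prime, qv m (q p) ((p : ℂ) ^ (-s))‖| ≤
      C * (1 + Real.log Q) ^ (max (1 - s.re) 0 + e) := by
  obtain ⟨C4, hC4, hQS⟩ := hLQS m hm
  have hC40 : 0 < C4 := by linarith
  obtain ⟨θ0, hθ0⟩ : ∃ θ0 : ℝ, θ0 = (2 : ℝ) ^ (-(1 / 2 : ℝ)) := ⟨_, rfl⟩
  have hθ00 : 0 ≤ θ0 := by rw [hθ0]; positivity
  have hθ01 : θ0 < 1 := by
    rw [hθ0]
    exact Real.rpow_lt_one_of_one_lt_of_neg (by norm_num) (by norm_num)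
  obtain ⟨C3, hC3, hFA⟩ := hLFA m θ0 hm hθ00 hθ01
  obtain ⟨C5, hC5, hSS⟩ := sum_small g hg0
  obtain ⟨ρ, hρ⟩ : ∃ ρ : ℝ, ρ = (2 : ℝ) ^ (-g) := ⟨_, rfl⟩
  have hρ0 : 0 < ρ := by rw [hρ]; positivity
  have hρ1 : ρ < 1 := by
    rw [hρ]
    exact Real.rpow_lt_one_of_one_lt_of_neg (by norm_num) (by linarith)
  have hρ2 : 0 < (1 - ρ)⁻¹ := inv_pos.2 (by linarith)
  have hm0 : (0 : ℝ) < m := by exact_mod_cast (by omega : 0 < m)
  obtain ⟨M, hM⟩ : ∃ M : ℝ, M = (4 : ℝ) ^ m := ⟨_, rfl⟩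
  have hM1 : 1 ≤ M := by rw [hM]; exact one_le_pow₀ (by norm_num)
  obtain ⟨K, hK⟩ : ∃ K : ℝ, K = m * (1 + C4) * (C1 + (M + M ^ 2) * 2 ^ g) := ⟨_, rfl⟩
  have hK0 : 0 < K := by rw [hK]; positivity
  obtain ⟨Z, hZ⟩ : ∃ Z : ℝ, Z = max ((M * C4) ^ (2 : ℝ)) 1 := ⟨_, rfl⟩
  have hZ1 : 1 ≤ Z := by rw [hZ]; exact le_max_right _ _
  have hZ4 : M * C4 ≤ Z ^ (1 / 2 : ℝ) := by
    have h1 : (M * C4) ^ (2 : ℝ) ≤ Z := by rw [hZ]; exact le_max_left _ _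
    calc M * C4 = ((M * C4) ^ (2 : ℝ)) ^ (1 / 2 : ℝ) := by
          rw [← Real.rpow_mul (by positivity)]
          norm_num
      _ ≤ _ := Real.rpow_le_rpow (by positivity) h1 (by norm_num)
  refine ⟨C3 * C5 + K * (1 - ρ)⁻¹, Real.exp Z, by positivity, Real.one_le_exp (by linarith), ?_⟩
  intro lam q Q hQ hE z hRb s hs hblk
  have hQ0 : 0 < Q := (Real.exp_pos Z).trans_le hQ
  obtain ⟨Y, hY⟩ : ∃ Y : ℝ, Y = Real.log Q := ⟨_, rfl⟩
  have hYZ : Z ≤ Y := by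
    rw [hY, Real.le_log_iff_exp_le hQ0]
    exact hQ
  have hY1 : 1 ≤ Y := hZ1.trans hYZ
  have hY0 : 0 < Y := by linarith
  rw [← hY] at hblk ⊢
  obtain ⟨α, hα⟩ : ∃ α : ℝ, α = s.re - g := ⟨_, rfl⟩
  have hα2 : 1 / 2 + g ≤ α := by rw [hα]; linarith
  have hα0 : 0 < α := by linarith
  have hpow : ∀ (p k : ℕ), ((p : ℂ) ^ (-s)) ^ k = (p : ℂ) ^ (-((k : ℂ) * s)) := by
    intro p k
    rw [← Complex.cpow_nat_mul]
    congr 1
    ring
  have hcoef : ∀ p : ℕ, p.Prime → (p : ℝ) ≤ z → ∀ k : ℕ,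
      ‖lam (p ^ k) * (p : ℂ) ^ (-((k : ℂ) * s))‖ ≤
        ((m + k).choose k : ℝ) * ((p : ℝ) ^ (-α)) ^ k := by
    intro p hp hpz k
    have hp0 : (0 : ℝ) < p := by exact_mod_cast hp.pos
    have h1 := hRb p hp hpz k
    have h2 : ‖(p : ℂ) ^ (-((k : ℂ) * s))‖ = (p : ℝ) ^ (-(k * s.re)) := by
      rw [Complex.norm_natCast_cpow_of_pos hp.pos]
      congr 1
      simp
    rw [norm_mul, h2]
    calc ‖lam (p ^ k)‖ * (p : ℝ) ^ (-(k * s.re)) ≤
        (((m + k).choose k : ℝ) * (p : ℝ) ^ (k * g)) * (p : ℝ) ^ (-(k * s.re)) :=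
          mul_le_mul_of_nonneg_right h1 (by positivity)
      _ = ((m + k).choose k : ℝ) * ((p : ℝ) ^ (k * g) * (p : ℝ) ^ (-(k * s.re))) := by
          ring
      _ = _ := by
          rw [← Real.rpow_add hp0, ← Real.rpow_natCast, ← Real.rpow_mul hp0.le]
          congr 2
          rw [hα]
          ring
  obtain ⟨f, hf⟩ : ∃ f : ℕ → ℝ, f = fun p => ‖qv m (q p) ((p : ℂ) ^ (-s))‖ := ⟨_, rfl⟩
  obtain ⟨PR, hPR⟩ : ∃ PR : Finset ℕ, PR = (Finset.range (⌊z⌋₊ + 1)).filter Nat.Prime := ⟨_, rfl⟩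
  have hmemP : ∀ p ∈ PR, p.Prime ∧ (p : ℝ) ≤ z := by
    intro p hp
    rw [hPR, Finset.mem_filter, Finset.mem_range, Nat.lt_succ_iff] at hp
    exact ⟨hp.2, (Nat.le_floor_iff' hp.2.ne_zero).1 hp.1⟩
  obtain ⟨E, hEd⟩ : ∃ E : ℝ, E = max (1 - s.re) 0 + e := ⟨_, rfl⟩
  have hE0 : 0 ≤ E := by
    rw [hEd]
    linarith [le_max_right (1 - s.re) 0]
  rw [← hEd]
  -- the small primes
  have hsm : ∀ p ∈ PR, (p : ℝ) ≤ Y → 0 < f p ∧ |Real.log (f p)| ≤ C3 * (p : ℝ) ^ (-α) := by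
    intro p hp hpY
    obtain ⟨hpp, hpz⟩ := hmemP p hp
    have hp2 : (2 : ℝ) ≤ p := by exact_mod_cast hpp.two_le
    rw [hf]
    refine hFA (fun k => lam (p ^ k)) (q p) ((p : ℂ) ^ (-s)) ((p : ℝ) ^ (-α)) (hE.loc p hpp)
      (by positivity) ?_ ?_
    · rw [hθ0]
      calc (p : ℝ) ^ (-α) ≤ (2 : ℝ) ^ (-α) :=
            Real.rpow_le_rpow_of_nonpos (by norm_num) hp2 (by linarith)
        _ ≤ _ := Real.rpow_le_rpow_of_exponent_le (by norm_num) (by linarith)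
    · intro k
      show ‖lam (p ^ k) * ((p : ℂ) ^ (-s)) ^ k‖ ≤ _
      rw [hpow]
      exact hcoef p hpp hpz k
  have hA : |∑ p ∈ PR.filter (fun p : ℕ => (p : ℝ) ≤ Y), Real.log (f p)| ≤
      C3 * C5 * (1 + Y) ^ E := by
    calc |∑ p ∈ PR.filter (fun p : ℕ => (p : ℝ) ≤ Y), Real.log (f p)| ≤
        ∑ p ∈ PR.filter (fun p : ℕ => (p : ℝ) ≤ Y), C3 * (p : ℝ) ^ (-α) :=
          (Finset.abs_sum_le_sum_abs _ _).trans (Finset.sum_le_sum fun p hp =>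
            (hsm p (Finset.mem_filter.1 hp).1 (Finset.mem_filter.1 hp).2).2)
      _ = C3 * ∑ p ∈ PR.filter (fun p : ℕ => (p : ℝ) ≤ Y), (p : ℝ) ^ (-α) := by
          rw [Finset.mul_sum]
      _ ≤ C3 * (C5 * (1 + Y) ^ (max (1 - α) 0 + g)) := by
          refine mul_le_mul_of_nonneg_left (hSS _ (1 + Y) α ?_ (by linarith)) hC3.le
          intro n hn
          rw [Finset.mem_filter] at hn
          exact ⟨(hmemP n hn.1).1.one_lt.le, by linarith [hn.2]⟩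
      _ ≤ C3 * (C5 * (1 + Y) ^ E) := by
          have h1 : max (1 - α) 0 + g ≤ E := by
            rw [hEd]
            have h2 : max (1 - α) 0 ≤ max (1 - s.re) 0 + g := by
              refine max_le ?_ ?_
              · rw [hα]
                linarith [le_max_left (1 - s.re) 0]
              · linarith [le_max_right (1 - s.re) 0]
            linarith
          have h2 : (1 + Y) ^ (max (1 - α) 0 + g) ≤ (1 + Y) ^ E :=
            Real.rpow_le_rpow_of_exponent_le (by linarith) h1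
          gcongr
      _ = _ := by ring
  -- one prime above `Y`
  have hbin : ∀ k : ℕ, k ≤ m → ((m + k).choose k : ℝ) ≤ M := by
    intro k hkm
    have h2 : (m + k).choose k ≤ 2 ^ (m + k) := Nat.choose_le_two_pow _ _
    have h3 : (2 : ℕ) ^ (m + k) ≤ 4 ^ m := by
      calc (2 : ℕ) ^ (m + k) ≤ 2 ^ (2 * m) := Nat.pow_le_pow_right (by norm_num) (by omega)
        _ = 4 ^ m := by rw [pow_mul]; norm_num
    rw [hM]
    exact_mod_cast h2.trans h3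
  have hlarge : ∀ p : ℕ, p.Prime → (p : ℝ) ≤ z → Y < (p : ℝ) → ∀ k : ℕ, 1 ≤ k → k ≤ m →
      ‖lam (p ^ k) * (p : ℂ) ^ (-((k : ℂ) * s))‖ ≤ 1 / C4 := by
    intro p hpp hpz hpY k hk1 hkm
    have hp1 : (1 : ℝ) ≤ p := by linarith
    have h4 : (p : ℝ) ^ (-α) ≤ Z ^ (-(1 / 2 : ℝ)) := by
      calc (p : ℝ) ^ (-α) ≤ (p : ℝ) ^ (-(1 / 2 : ℝ)) :=
            Real.rpow_le_rpow_of_exponent_le hp1 (by linarith)
        _ ≤ _ := Real.rpow_le_rpow_of_nonpos (by linarith) (by linarith) (by norm_num)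
    have h5 : (p : ℝ) ^ (-α) ≤ 1 := Real.rpow_le_one_of_one_le_of_nonpos hp1 (by linarith)
    have h6 : ((p : ℝ) ^ (-α)) ^ k ≤ (p : ℝ) ^ (-α) :=
      pow_le_of_le_one (by positivity) h5 (by omega)
    have hZp : 0 < Z ^ (1 / 2 : ℝ) := by positivity
    calc _ ≤ ((m + k).choose k : ℝ) * ((p : ℝ) ^ (-α)) ^ k := hcoef p hpp hpz k
      _ ≤ M * Z ^ (-(1 / 2 : ℝ)) := by
          have h7 := h6.trans h4
          have h8 := hbin k hkm
          gcongr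
      _ ≤ 1 / C4 := by
          rw [Real.rpow_neg (by linarith), ← div_eq_mul_inv, div_le_div_iff₀ hZp hC40, one_mul]
          exact hZ4
  -- one block
  have hBk : ∀ j : ℕ, |∑ p ∈ (PR.filter (fun p : ℕ => ¬ (p : ℝ) ≤ Y)).filter
      (fun p => Nat.clog 2 p = j), Real.log (f p)| ≤ K * (1 + Y) ^ E * ρ ^ j := by
    intro j
    obtain ⟨U, hU⟩ : ∃ U : Finset ℕ, U = (PR.filter (fun p : ℕ => ¬ (p : ℝ) ≤ Y)).filter
      (fun p => Nat.clog 2 p = j) := ⟨_, rfl⟩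
    rw [← hU]
    rcases U.eq_empty_or_nonempty with h0 | ⟨p0, hp0⟩
    · rw [h0, Finset.sum_empty, abs_zero]
      positivity
    · have hmemU : ∀ p ∈ U, p.Prime ∧ Y < (p : ℝ) ∧ (p : ℝ) ≤ z ∧ Nat.clog 2 p = j := by
        intro p hp
        rw [hU, Finset.mem_filter, Finset.mem_filter] at hp
        obtain ⟨h1, h2⟩ := hmemP p hp.1.1
        exact ⟨h1, not_le.1 hp.1.2, h2, hp.2⟩
      have hj : 1 ≤ j := by
        obtain ⟨h1, -, -, h4⟩ := hmemU p0 hp0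
        rw [← h4]
        exact Nat.clog_pos one_lt_two h1.one_lt
      have hUP : U = UP Y z j := by
        ext p
        rw [hU, Finset.mem_filter, Finset.mem_filter, hPR, Finset.mem_filter, Finset.mem_range,
          Nat.lt_succ_iff]
        unfold UP
        rw [Finset.mem_filter, Finset.mem_Ioc]
        constructor
        · rintro ⟨⟨⟨h1, h2⟩, h3⟩, h4⟩
          refine ⟨⟨?_, ?_⟩, h2, not_le.1 h3, (Nat.le_floor_iff' h2.ne_zero).1 h1⟩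
          · rw [← h4]
            exact Nat.pow_pred_clog_lt_self one_lt_two h2.one_lt
          · rw [← h4]
            exact Nat.le_pow_clog one_lt_two p
        · rintro ⟨⟨h1, h2⟩, h3, h4, h5⟩
          refine ⟨⟨⟨(Nat.le_floor_iff' h3.ne_zero).2 h5, h3⟩, not_le.2 h4⟩, ?_⟩
          apply le_antisymm
          · exact (Nat.clog_le_iff_le_pow one_lt_two).2 h2
          · have := (Nat.lt_clog_iff_pow_lt one_lt_two).2 h1
            omega
      have h2j : Y ≤ (2 : ℝ) ^ j := by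
        obtain ⟨h1, h2, h3, h4⟩ := hmemU p0 hp0
        have h5 := Nat.le_pow_clog one_lt_two p0
        rw [h4] at h5
        have h6 : (p0 : ℝ) ≤ 2 ^ j := by exact_mod_cast h5
        linarith
      have hj0 : (0 : ℝ) ≤ (j : ℝ) - 1 := by
        have : (1 : ℝ) ≤ j := by exact_mod_cast hj
        linarith
      obtain ⟨W, hW⟩ : ∃ W : ℝ, W = (2 : ℝ) ^ g * ρ ^ j := ⟨_, rfl⟩
      have hW0 : 0 < W := by rw [hW]; positivity
      have hW2 : (2 : ℝ) ^ (((j : ℝ) - 1) * (1 - 2 * α)) ≤ W := by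
        have e1 : W = (2 : ℝ) ^ (((j : ℝ) - 1) * (-g)) := by
          rw [hW, hρ, ← Real.rpow_natCast, ← Real.rpow_mul (by norm_num),
            ← Real.rpow_add (by norm_num)]
          congr 1
          ring
        rw [e1]
        exact Real.rpow_le_rpow_of_exponent_le (by norm_num)
          (mul_le_mul_of_nonneg_left (by linarith) hj0)
      have hsq : ∑ p ∈ U, ((p : ℝ) ^ (-α)) ^ 2 ≤ W := by
        have e1 : ∀ p ∈ U, ((p : ℝ) ^ (-α)) ^ 2 = (p : ℝ) ^ (-(2 * α)) := by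
          intro p hp
          rw [← Real.rpow_natCast, ← Real.rpow_mul (Nat.cast_nonneg p)]
          congr 1
          push_cast
          ring
        rw [Finset.sum_congr rfl e1, hUP]
        exact (block_sum hj (by linarith)).trans hW2
      have hxk : ∀ p ∈ U, ∀ k : ℕ, 1 ≤ k → k ≤ m →
          ‖lam (p ^ k) * (p : ℂ) ^ (-((k : ℂ) * s))‖ ≤ M * (p : ℝ) ^ (-α) ∧
          (2 ≤ k → ‖lam (p ^ k) * (p : ℂ) ^ (-((k : ℂ) * s))‖ ≤ M * ((p : ℝ) ^ (-α)) ^ 2) := by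
        intro p hp k hk1 hkm
        obtain ⟨h1, h2, h3, h4⟩ := hmemU p hp
        have hp1 : (1 : ℝ) ≤ p := by linarith
        have h5 : (p : ℝ) ^ (-α) ≤ 1 := Real.rpow_le_one_of_one_le_of_nonpos hp1 (by linarith)
        have h6 := hcoef p h1 h3 k
        have h7 := hbin k hkm
        have h8 : (0 : ℝ) ≤ (p : ℝ) ^ (-α) := by positivity
        constructor
        · refine h6.trans ?_
          have h9 : ((p : ℝ) ^ (-α)) ^ k ≤ (p : ℝ) ^ (-α) := pow_le_of_le_one h8 h5 (by omega)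
          gcongr
        · intro hk2
          refine h6.trans ?_
          have h9 : ((p : ℝ) ^ (-α)) ^ k ≤ ((p : ℝ) ^ (-α)) ^ 2 :=
            pow_le_pow_of_le_one h8 h5 hk2
          gcongr
      have hb := (block hC4 hQS hE s U (fun p hp => (hmemU p hp).1)
        (C1 * √Y * (2 : ℝ) ^ (-((j : ℝ) * (s.re - 1 / 2 - g))) + (M + M ^ 2) * W)
        (fun p hp k hk1 hk2 => hlarge p (hmemU p hp).1 (hmemU p hp).2.2.1 (hmemU p hp).2.1 k hk1 hk2)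
        (fun k hk1 hk2 => by
          have hB1 : 0 ≤ C1 * √Y * (2 : ℝ) ^ (-((j : ℝ) * (s.re - 1 / 2 - g))) := by positivity
          have h1 : ‖∑ p ∈ U, lam (p ^ k) * (p : ℂ) ^ (-((k : ℂ) * s))‖ ≤
              C1 * √Y * (2 : ℝ) ^ (-((j : ℝ) * (s.re - 1 / 2 - g))) + M * W := by
            rcases Nat.lt_or_ge k 2 with hk | hk
            · obtain rfl : k = 1 := by omega
              have h2 := hblk j hj h2j ⟨p0, by rw [← hUP]; exact hp0⟩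
              rw [← hUP] at h2
              simp only [pow_one, Nat.cast_one, one_mul]
              have h3 : 0 ≤ M * W := by positivity
              linarith
            · have h2 : ‖∑ p ∈ U, lam (p ^ k) * (p : ℂ) ^ (-((k : ℂ) * s))‖ ≤ M * W := by
                calc _ ≤ ∑ p ∈ U, ‖lam (p ^ k) * (p : ℂ) ^ (-((k : ℂ) * s))‖ := norm_sum_le _ _
                  _ ≤ ∑ p ∈ U, M * ((p : ℝ) ^ (-α)) ^ 2 :=
                      Finset.sum_le_sum fun p hp => (hxk p hp k hk1 hk2).2 hk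
                  _ = M * ∑ p ∈ U, ((p : ℝ) ^ (-α)) ^ 2 := by rw [Finset.mul_sum]
                  _ ≤ M * W := mul_le_mul_of_nonneg_left hsq (by linarith)
              linarith
          have h2 : ∑ p ∈ U, ‖lam (p ^ k) * (p : ℂ) ^ (-((k : ℂ) * s))‖ ^ 2 ≤ M ^ 2 * W := by
            calc _ ≤ ∑ p ∈ U, M ^ 2 * ((p : ℝ) ^ (-α)) ^ 2 := by
                  refine Finset.sum_le_sum fun p hp => ?_
                  rw [← mul_pow]
                  exact pow_le_pow_left₀ (norm_nonneg _) (hxk p hp k hk1 hk2).1 2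
              _ = M ^ 2 * ∑ p ∈ U, ((p : ℝ) ^ (-α)) ^ 2 := by rw [Finset.mul_sum]
              _ ≤ M ^ 2 * W := mul_le_mul_of_nonneg_left hsq (by positivity)
          calc _ ≤ _ := add_le_add h1 h2
            _ = _ := by ring)).2
      rw [hf]
      refine hb.trans ?_
      have h7 : √Y * (2 : ℝ) ^ (-((j : ℝ) * (s.re - 1 / 2 - g))) ≤ (1 + Y) ^ E * ρ ^ j := by
        have e1 : (2 : ℝ) ^ (-((j : ℝ) * (s.re - 1 / 2 - g))) =
            ((2 : ℝ) ^ j) ^ (-(s.re - 1 / 2 - g - g)) * ρ ^ j := by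
          rw [hρ, ← Real.rpow_natCast 2 j, ← Real.rpow_mul (by norm_num), ← Real.rpow_natCast,
            ← Real.rpow_mul (by norm_num), ← Real.rpow_add (by norm_num)]
          congr 1
          ring
        rw [e1]
        calc √Y * (((2 : ℝ) ^ j) ^ (-(s.re - 1 / 2 - g - g)) * ρ ^ j) ≤
            √Y * (Y ^ (-(s.re - 1 / 2 - g - g)) * ρ ^ j) := by
              have : ((2 : ℝ) ^ j) ^ (-(s.re - 1 / 2 - g - g)) ≤ Y ^ (-(s.re - 1 / 2 - g - g)) :=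
                Real.rpow_le_rpow_of_nonpos hY0 h2j (by linarith)
              gcongr
          _ = Y ^ (1 / 2 + -(s.re - 1 / 2 - g - g)) * ρ ^ j := by
              rw [Real.rpow_add hY0, Real.sqrt_eq_rpow]
              ring
          _ ≤ Y ^ E * ρ ^ j := by
              refine mul_le_mul_of_nonneg_right (Real.rpow_le_rpow_of_exponent_le hY1 ?_)
                (by positivity)
              rw [hEd]
              linarith [le_max_left (1 - s.re) 0]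
          _ ≤ (1 + Y) ^ E * ρ ^ j := by
              refine mul_le_mul_of_nonneg_right (Real.rpow_le_rpow hY0.le (by linarith) hE0)
                (by positivity)
      have h8 : 1 ≤ (1 + Y) ^ E := Real.one_le_rpow (by linarith) hE0
      have h9 : W ≤ 2 ^ g * ((1 + Y) ^ E * ρ ^ j) := by
        rw [hW]
        have : ρ ^ j ≤ (1 + Y) ^ E * ρ ^ j := le_mul_of_one_le_left (by positivity) h8
        gcongr
      calc m * (1 + C4) * (C1 * √Y * (2 : ℝ) ^ (-((j : ℝ) * (s.re - 1 / 2 - g))) +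
            (M + M ^ 2) * W)
          = m * (1 + C4) * (C1 * (√Y * (2 : ℝ) ^ (-((j : ℝ) * (s.re - 1 / 2 - g)))) +
            (M + M ^ 2) * W) := by ring
        _ ≤ m * (1 + C4) * (C1 * ((1 + Y) ^ E * ρ ^ j) +
            (M + M ^ 2) * (2 ^ g * ((1 + Y) ^ E * ρ ^ j))) := by gcongr
        _ = _ := by
            rw [hK]
            ring
  have hBig : |∑ p ∈ PR.filter (fun p : ℕ => ¬ (p : ℝ) ≤ Y), Real.log (f p)| ≤
      K * (1 - ρ)⁻¹ * (1 + Y) ^ E := by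
    have hmaps : ∀ p ∈ PR.filter (fun p : ℕ => ¬ (p : ℝ) ≤ Y),
        Nat.clog 2 p ∈ Finset.range (⌊z⌋₊ + 1) := by
      intro p hp
      rw [Finset.mem_filter, hPR, Finset.mem_filter, Finset.mem_range, Nat.lt_succ_iff] at hp
      rw [Finset.mem_range, Nat.lt_succ_iff]
      exact (Nat.clog_le_of_le_pow Nat.lt_two_pow_self.le).trans hp.1.1
    rw [← Finset.sum_fiberwise_of_maps_to hmaps]
    calc _ ≤ ∑ j ∈ Finset.range (⌊z⌋₊ + 1), K * (1 + Y) ^ E * ρ ^ j :=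
          (Finset.abs_sum_le_sum_abs _ _).trans (Finset.sum_le_sum fun j _ => hBk j)
      _ = K * (1 + Y) ^ E * ∑ j ∈ Finset.range (⌊z⌋₊ + 1), ρ ^ j := by rw [Finset.mul_sum]
      _ ≤ K * (1 + Y) ^ E * (1 - ρ)⁻¹ := by
          refine mul_le_mul_of_nonneg_left ?_ (by positivity)
          rw [← tsum_geometric_of_lt_one hρ0.le hρ1]
          exact (summable_geometric_of_lt_one hρ0.le hρ1).sum_le_tsum _
            (fun _ _ => by positivity)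
      _ = _ := by ring
  have hpos : ∀ p ∈ PR, 0 < f p := by
    intro p hp
    obtain ⟨hpp, hpz⟩ := hmemP p hp
    by_cases h1 : (p : ℝ) ≤ Y
    · exact (hsm p hp h1).1
    · rw [hf]
      have h2 := hQS (fun k => lam (p ^ k)) (q p) ((p : ℂ) ^ (-s)) (hE.loc p hpp) (by
        intro k hk1 hk2
        show ‖lam (p ^ k) * ((p : ℂ) ^ (-s)) ^ k‖ ≤ 1 / C4
        rw [hpow]
        exact hlarge p hpp hpz (not_le.1 h1) k hk1 hk2)
      exact h2.1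
  rw [norm_prod, ← hPR]
  have hff : ∏ p ∈ PR, ‖qv m (q p) ((p : ℂ) ^ (-s))‖ = ∏ p ∈ PR, f p := by rw [hf]
  rw [hff]
  refine ⟨Finset.prod_pos hpos, ?_⟩
  rw [Real.log_prod (fun p hp => (hpos p hp).ne'),
    ← Finset.sum_filter_add_sum_filter_not PR (fun p : ℕ => (p : ℝ) ≤ Y)]
  calc _ ≤ |∑ p ∈ PR.filter (fun p : ℕ => (p : ℝ) ≤ Y), Real.log (f p)| +
      |∑ p ∈ PR.filter (fun p : ℕ => ¬ (p : ℝ) ≤ Y), Real.log (f p)| := abs_add_le _ _
    _ ≤ C3 * C5 * (1 + Y) ^ E + K * (1 - ρ)⁻¹ * (1 + Y) ^ E := add_le_add hA hBig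
    _ = _ := by ring

end Pool.Agent.H55.LX
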