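import Pool.Agent.H20.LX.T2
import Pool.Agent.H55.LX.PRXG
import Pool.Agent.H17.ZF.MIDA

/-!
Page lx (MP_52e316_nt), row PRX: the logarithm of the product of the inverses of the local factors.
-/

set_option autoImplicit false

namespace Pool.Agent.H55.LX

open Pool.Agent.H27.ZF Pool.Agent.H68.ZS Pool.Agent.H12.ZR Pool.Agent.H20.LX

theorem pf_PRX (hEDU : T_EDU) (hMIX : T_MIX) (hLFA : T_LFA) (hLQS : T_LQS) : T_PRX := by
  intro m d e B hm hd hd2 he hed hB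
  obtain ⟨g, hg⟩ : ∃ g : ℝ, g = e / 2 := ⟨_, rfl⟩
  have hg0 : 0 < g := by rw [hg]; positivity
  have hm0 : (0 : ℝ) ≤ m := Nat.cast_nonneg m
  obtain ⟨C, Q0, hC, hQ0, h⟩ := prxG hLFA hLQS m d e g (8 * ((m : ℝ) + 1) * (2 : ℝ) ^ B) hm hd hg0
    (by rw [hg]; linarith) (by rw [hg]; linarith) (by positivity)
  refine ⟨g / 2, g, C, Q0, by positivity, hg0, hC, hQ0, ?_⟩
  intro lam q Q z hQ hE hz hRb s hs hsB hDx
  have hQ1 : 1 ≤ Q := hQ0.trans hQ
  refine h lam q Q hQ hE z hRb s hs ?_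
  intro j hj hlog hne
  obtain ⟨p, hp⟩ := hne
  unfold UP at hp
  rw [Finset.mem_filter, Finset.mem_Ioc] at hp
  obtain ⟨⟨hp1, hp2⟩, hpp, hp3, hp4⟩ := hp
  have hp2' : (2 : ℝ) ≤ p := by exact_mod_cast hpp.two_le
  have h2j : (2 : ℝ) ^ j ≤ Q := by
    obtain ⟨i, rfl⟩ : ∃ i, j = i + 1 := ⟨j - 1, by omega⟩
    rw [Nat.add_sub_cancel] at hp1
    have h1 : (2 : ℝ) ^ i ≤ p := by exact_mod_cast hp1.le
    calc (2 : ℝ) ^ (i + 1) = 2 * 2 ^ i := by ring
      _ ≤ p * p := by nlinarith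
      _ ≤ z * z := by nlinarith
      _ = z ^ 2 := by ring
      _ ≤ z ^ (4 * m) := pow_le_pow_right₀ (by linarith) (by omega)
      _ ≤ Q := hz
  obtain ⟨l1, -⟩ := Pool.Agent.H17.ZF.lf_facts Q j 1 hQ1 hj le_rfl (by simpa using h2j)
  refine hMIX ((m : ℝ) + 1) g (g / 2) B Q (Real.log Q) z lam j s (by linarith) hg0 (by positivity)
    (by linarith) (by rw [hg]; linarith) hsB hQ1 hj h2j hlog ?_ ?_
  · intro p hp
    unfold UP at hp
    rw [Finset.mem_filter] at hp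
    have h1 := hRb p hp.2.1 hp.2.2.2 1
    rw [pow_one, Nat.choose_one_right] at h1
    push_cast at h1
    rw [one_mul] at h1
    exact h1
  · rw [hEDU m lam q hE (Real.log Q) z j (lf Q j 1) hj l1 s]
    have h1 := hDx j hj h2j
    unfold bx at h1
    exact h1

end Pool.Agent.H55.LX
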